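import Pool.Agent.Lib_helper88.Stretch.Final
import Pool.Agent.Lib_helper88.Stretch.Growth
import Pool.Agent.Lib_helper88.Stretch.Reduction

/-!
# MP_548ab2_lc: constant-stretch reweighting needs exponential aspect ratio

Q1 has a negative answer, for every stretch `α`, and the required aspect ratio is exponential.
-/

namespace Pool.Agent.Results.MP_548ab2_lc.ExponentialAspectRatio

open Pool.Agent.Lib_helper88.Stretch

/-- Q1 of the problem: constant stretch can be achieved by reweightings of polynomial aspect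
ratio. -/
def Q1 : Prop :=
  ∃ α : ℝ, 1 ≤ α ∧ ∃ c : ℝ, 0 < c ∧ ∀ n : ℕ, 2 ≤ n →
    ∀ (G : SimpleGraph (Fin n)) (wG : Sym2 (Fin n) → ℝ), IsWeighting G wG →
      ∃ wH : Sym2 (Fin n) → ℝ, IsWeighting G wH ∧ StretchPreserving α G wG wH ∧
        aspectRatio G wH ≤ (n : ℝ) ^ c

/-- For every stretch `α` there are, for all large `n`, connected weighted `n`-vertex graphs all
of whose `α`-stretch shortest-paths preserving reweightings have aspect ratio at least
`2 ^ (ε n)`, `ε = ε(α) > 0`. -/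
def Exponential : Prop :=
  ∀ α : ℝ, 1 ≤ α → ∃ ε : ℝ, 0 < ε ∧ ∃ n₀ : ℕ, ∀ n : ℕ, n₀ ≤ n →
    ∃ (G : SimpleGraph (Fin n)) (wG : Sym2 (Fin n) → ℝ), G.Connected ∧ IsWeighting G wG ∧
      ∀ wH : Sym2 (Fin n) → ℝ, IsWeighting G wH → StretchPreserving α G wG wH →
        (2 : ℝ) ^ (ε * n) ≤ aspectRatio G wH

theorem result : Exponential ∧ ¬ Q1 := by
  have hE : Exponential := fun α _ => exponential_bound growthGadget reductionGadget α
  refine ⟨hE, ?_⟩
  rintro ⟨α, hα, c, _, h⟩
  obtain ⟨ε, hε, n₀, hn₀⟩ := hE α hα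
  obtain ⟨n, h1, h2, h3⟩ := exists_large ε c hε n₀
  obtain ⟨G, wG, _, hw, hG⟩ := hn₀ n h1
  obtain ⟨wH, hH, hs, ha⟩ := h n h2 G wG hw
  have := hG wH hH hs
  linarith

end Pool.Agent.Results.MP_548ab2_lc.ExponentialAspectRatio
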